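import Pool.Agent.H891R3.Kag.Stmts

/-!
TaskLine of the project H891KAG: translation between 3-colourings of the periodic kagome lattice and
functions `Fin 3 → Pt n → Fin 3`.
-/

set_option autoImplicit false

namespace Pool.Agent.H891R3.Kag

open Pool.Agent.H411R2.WSK

theorem L_dd_inj {n : ℕ} (hn : 2 ≤ n) : Function.Injective (dd n) := by
  have h1 : (1 : ZMod n) ≠ 0 := by
    have : Fact (1 < n) := ⟨by omega⟩
    exact one_ne_zero
  intro s t h
  fin_cases s <;> fin_cases t <;> simp [dd, Prod.ext_iff, h1, Ne.symm h1] at h ⊢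

/-- the edge of direction `t` at `(x, A)` -/
def Ledge (n : ℕ) (t : Fin 3) (x : Pt n) : (honeycomb n).edgeSet :=
  ⟨s(Sum.inl x, Sum.inr (x - dd n t)), by
    rw [SimpleGraph.mem_edgeSet]
    unfold honeycomb
    rw [SimpleGraph.fromRel_adj]
    refine ⟨by simp, Or.inl ⟨x, rfl, ?_⟩⟩
    fin_cases t <;> simp [dd]⟩

theorem Ledge_val (n : ℕ) (t : Fin 3) (x : Pt n) :
    (Ledge n t x).1 = s(Sum.inl x, Sum.inr (x - dd n t)) := rfl

theorem Ledge_inj {n : ℕ} (hn : 2 ≤ n) {s t : Fin 3} {x y : Pt n}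
    (h : Ledge n s x = Ledge n t y) : s = t ∧ x = y := by
  have h1 := congrArg Subtype.val h
  rw [Ledge_val, Ledge_val, Sym2.eq_iff] at h1
  rcases h1 with ⟨h1, h2⟩ | ⟨h1, h2⟩
  · have hx : x = y := Sum.inl_injective h1
    have h3 : x - dd n s = y - dd n t := Sum.inr_injective h2
    rw [hx] at h3
    exact ⟨L_dd_inj hn (sub_right_injective h3), hx⟩
  · cases h1

theorem Ledge_surj {n : ℕ} (e : (honeycomb n).edgeSet) : ∃ t x, e = Ledge n t x := by
  obtain ⟨e, he⟩ := e
  induction e using Sym2.ind with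
  | _ u v =>
    rw [SimpleGraph.mem_edgeSet] at he
    unfold honeycomb at he
    rw [SimpleGraph.fromRel_adj] at he
    have key : ∀ u v : Pt n ⊕ Pt n, (∃ x : ZMod n × ZMod n, u = Sum.inl x ∧
        (v = Sum.inr x ∨ v = Sum.inr (x - (1, 0)) ∨ v = Sum.inr (x - (0, 1)))) →
        ∃ t x, s(u, v) = s(Sum.inl x, Sum.inr (x - dd n t)) := by
      rintro u v ⟨x, rfl, h⟩
      rcases h with rfl | rfl | rfl
      · exact ⟨0, x, by simp [dd]⟩
      · exact ⟨1, x, by simp [dd]⟩
      · exact ⟨2, x, by simp [dd]⟩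
    rcases he.2 with h | h
    · obtain ⟨t, x, h'⟩ := key u v h
      exact ⟨t, x, Subtype.ext h'⟩
    · obtain ⟨t, x, h'⟩ := key v u h
      refine ⟨t, x, Subtype.ext ?_⟩
      rw [Ledge_val, ← h']
      exact Sym2.eq_swap

theorem Ladj {n : ℕ} (s t : Fin 3) (x y : Pt n) :
    (kagome n).Adj (Ledge n s x) (Ledge n t y) ↔
      Ledge n s x ≠ Ledge n t y ∧ (x = y ∨ x - dd n s = y - dd n t) := by
  unfold kagome
  rw [SimpleGraph.lineGraph_adj_iff_exists]
  apply and_congr_right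
  intro _
  rw [Ledge_val, Ledge_val]
  constructor
  · rintro ⟨v, hv, hw⟩
    rw [Sym2.mem_iff] at hv hw
    rcases hv with rfl | rfl
    · rcases hw with h | h
      · left; exact Sum.inl_injective h
      · cases h
    · rcases hw with h | h
      · cases h
      · right; exact Sum.inr_injective h
  · rintro (rfl | h)
    · exact ⟨Sum.inl x, by simp, by simp⟩
    · exact ⟨Sum.inr (x - dd n s), by simp, by rw [h]; simp⟩

theorem Ladj1 {n : ℕ} (hn : 2 ≤ n) {s t : Fin 3} (hst : s ≠ t) (x : Pt n) :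
    (kagome n).Adj (Ledge n s x) (Ledge n t x) := by
  rw [Ladj]
  exact ⟨fun h => hst (Ledge_inj hn h).1, Or.inl rfl⟩

theorem Ladj2 {n : ℕ} (hn : 2 ≤ n) {s t : Fin 3} (hst : s ≠ t) (x : Pt n) :
    (kagome n).Adj (Ledge n s (x + dd n s)) (Ledge n t (x + dd n t)) := by
  rw [Ladj]
  exact ⟨fun h => hst (Ledge_inj hn h).1, Or.inr (by simp)⟩

theorem L_good {n : ℕ} {e : Fin 3 → Pt n → Fin 3} (hg : Good n e) {s t : Fin 3} (hst : s ≠ t)
    (x : Pt n) : e s x ≠ e t x ∧ e s (x + dd n s) ≠ e t (x + dd n t) := by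
  have d0 : x + dd n 0 = x := by simp [dd]
  have d1 : x + dd n 1 = x + (1, 0) := by simp [dd]
  have d2 : x + dd n 2 = x + (0, 1) := by simp [dd]
  obtain ⟨a1, a2, a3⟩ := hg.1 x
  obtain ⟨b1, b2, b3⟩ := hg.2 x
  rw [← d1] at b1 b2
  rw [← d2] at b2 b3
  nth_rewrite 1 [← d0] at b1 b3
  fin_cases s <;> fin_cases t
  · exact absurd rfl hst
  · exact ⟨a1, b1⟩
  · exact ⟨a3, b3⟩
  · exact ⟨a1.symm, b1.symm⟩
  · exact absurd rfl hst
  · exact ⟨a2, b2⟩
  · exact ⟨a3.symm, b3.symm⟩
  · exact ⟨a2.symm, b2.symm⟩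
  · exact absurd rfl hst

theorem L_good' {n : ℕ} {e : Fin 3 → Pt n → Fin 3}
    (h : ∀ (s t : Fin 3), s ≠ t → ∀ x : Pt n,
      e s x ≠ e t x ∧ e s (x + dd n s) ≠ e t (x + dd n t)) : Good n e := by
  have d0 : ∀ x : Pt n, x + dd n 0 = x := by intro x; simp [dd]
  have d1 : ∀ x : Pt n, x + dd n 1 = x + (1, 0) := by intro x; simp [dd]
  have d2 : ∀ x : Pt n, x + dd n 2 = x + (0, 1) := by intro x; simp [dd]
  refine ⟨fun x => ⟨(h 0 1 (by decide) x).1, (h 1 2 (by decide) x).1, (h 0 2 (by decide) x).1⟩,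
    fun x => ?_⟩
  have h1 := (h 0 1 (by decide) x).2
  have h2 := (h 1 2 (by decide) x).2
  have h3 := (h 0 2 (by decide) x).2
  rw [d0, d1] at h1
  rw [d1, d2] at h2
  rw [d0, d2] at h3
  exact ⟨h1, h2, h3⟩

theorem taskLine : TaskLine := by
  intro n hn
  have : NeZero n := ⟨by omega⟩
  refine ⟨fun c t x => c (Ledge n t x), ?_, ?_, ?_, ?_⟩
  · intro c
    apply L_good'
    intro s t hst x
    exact ⟨c.valid (Ladj1 hn hst x), c.valid (Ladj2 hn hst x)⟩
  · intro e he
    choose T X hTX using fun v : (honeycomb n).edgeSet => Ledge_surj v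
    refine ⟨SimpleGraph.Coloring.mk (fun v => e (T v) (X v)) ?_, ?_⟩
    · intro v w hvw
      rw [hTX v, hTX w, Ladj] at hvw
      obtain ⟨hne, hvw⟩ := hvw
      rcases hvw with h | h
      · rw [← h] at hne ⊢
        have hst : T v ≠ T w := fun h' => hne (by rw [h'])
        exact (L_good he hst (X v)).1
      · have hst : T v ≠ T w := by
          intro h'
          apply hne
          rw [h'] at h
          rw [h', sub_left_injective h]
        have := (L_good he hst (X v - dd n (T v))).2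
        rw [sub_add_cancel] at this
        rw [h, sub_add_cancel] at this
        exact this
    · funext t x
      show e (T (Ledge n t x)) (X (Ledge n t x)) = e t x
      have := Ledge_inj hn (hTX (Ledge n t x))
      rw [← this.1, ← this.2]
  · intro c c' h
    obtain ⟨a, b, hab, U, ⟨hU1, hU2⟩, hs1, hs2⟩ := h.closed
    refine ⟨a, b, hab, fun t x => Ledge n t x ∈ U, ?_, ?_, ?_, ?_, ?_⟩
    · intro t x hx
      exact hU1 _ hx
    · intro x s t hs ht
      by_cases hst : s = t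
      · rw [← hst]; exact hs
      · exact hU2 _ hs _ (Ladj1 hn hst x) ht
    · intro x s t hs ht
      by_cases hst : s = t
      · rw [← hst]; exact hs
      · exact hU2 _ hs _ (Ladj2 hn hst x) ht
    · intro t x hx
      exact hs1 _ hx
    · intro t x hx
      exact hs2 _ hx
  · rintro c c' ⟨a, b, hab, U, h1, h2, h3, h4, h5⟩
    have hmem : ∀ t x, Ledge n t x ∈ {v : (honeycomb n).edgeSet | ∃ t x, v = Ledge n t x ∧ U t x} ↔
        U t x := by
      intro t x
      constructor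
      · rintro ⟨s, y, h, hU⟩
        obtain ⟨rfl, rfl⟩ := Ledge_inj hn h
        exact hU
      · intro h
        exact ⟨t, x, rfl, h⟩
    refine reach_of_closed hab _ c c' {v | ∃ t x, v = Ledge n t x ∧ U t x} rfl ⟨?_, ?_⟩ ⟨?_, ?_⟩
    · rintro v ⟨t, x, rfl, hU⟩
      exact h1 t x hU
    · rintro v ⟨s, x, rfl, hU⟩ w hvw hw
      obtain ⟨t, y, rfl⟩ := Ledge_surj w
      rw [hmem]
      rw [Ladj] at hvw
      obtain ⟨_, h | h⟩ := hvw
      · rw [← h] at hw ⊢
        exact h2 x s t hU hw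
      · have hx : x = (x - dd n s) + dd n s := by rw [sub_add_cancel]
        have hy : y = (x - dd n s) + dd n t := by rw [h, sub_add_cancel]
        rw [hy] at hw ⊢
        rw [hx] at hU
        exact h3 (x - dd n s) s t hU hw
    · rintro v ⟨t, x, rfl, hU⟩
      exact h4 t x hU
    · intro v hv
      obtain ⟨t, y, rfl⟩ := Ledge_surj v
      rw [hmem] at hv
      exact h5 t y hv

end Pool.Agent.H891R3.Kag
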